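import Pool.Agent.Lib.MP_83ee93_co.Moduli

/-!
# MP_83ee93_co: characterisation of the convex figures with `S(F) = 6`
-/

set_option autoImplicit false

namespace Pool.Agent.Results.MP_83ee93_co.MinimalPentagons

open Pool.Agent.MP_83ee93_co

/-- Characterisation of the convex figures `F` with `S(F) = 6`.

Call a convex figure critical if its area is less than four and it contains five points, all of
whose triangles have area at least one. Then `S(F) = 6` if and only if some affine image of `F`
is critical, if and only if some affine image of `F` has area less than four and contains one of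
the pentagons with vertices `(-1, 0)`, `(1, 0)`, `(q / 2, 1)`, `(t, 1 + 2 / q)`, `(-q / 2, 1)`,
where `1 + √5 ≤ q < 4` and `|t| ≤ q / 2 - 2 / q - 1`. The images of these pentagons under the
affine maps that preserve areas are exactly the minimal critical figures, and two of the pentagons
are affinely equivalent only if they have the same `q` and the same `|t|`. -/
theorem result :
    (∀ F : Set (ℝ × ℝ), IsConvexFigure F →
      ((S F = 6 ↔ ∃ T : (ℝ × ℝ) ≃ᵃ[ℝ] (ℝ × ℝ), IsCritical (T '' F)) ∧
      (S F = 6 ↔ ∃ (T : (ℝ × ℝ) ≃ᵃ[ℝ] (ℝ × ℝ)) (q t : ℝ), 1 + √5 ≤ q ∧ q < 4 ∧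
        |t| ≤ q / 2 - 2 / q - 1 ∧ pentagon q t ⊆ T '' F ∧ area (T '' F) < 4))) ∧
    (∀ K : Set (ℝ × ℝ), Minimal IsCritical K ↔
      ∃ (T : (ℝ × ℝ) ≃ᵃ[ℝ] (ℝ × ℝ)) (q t : ℝ), (∀ X, area (T '' X) = area X) ∧ 1 + √5 ≤ q ∧
        q < 4 ∧ |t| ≤ q / 2 - 2 / q - 1 ∧ K = T '' pentagon q t) ∧
    (∀ q t q' t' : ℝ, 1 + √5 ≤ q → q < 4 → |t| ≤ q / 2 - 2 / q - 1 → 1 + √5 ≤ q' → q' < 4 →
      |t'| ≤ q' / 2 - 2 / q' - 1 → ∀ T : (ℝ × ℝ) ≃ᵃ[ℝ] (ℝ × ℝ),
      T '' pentagon q t = pentagon q' t' → q = q' ∧ |t| = |t'|) := by
  refine ⟨?_, minimal_iff, ?_⟩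
  · intro F hF
    refine ⟨?_, ?_⟩
    · rw [S_eq_six_iff hF.1 hF.2.1]
      constructor
      · intro h
        obtain ⟨T, q, t, hq, hq4, ht, hsub, hA⟩ := exists_normal_form hF.1 hF.2.1 h
        refine ⟨T, ?_, hA, Finset.univ.image (vert q t), ?_, card_vert hq ht, large_vert hq ht⟩
        · apply isConvexFigure_of_area (image_compact T hF.1) (image_convex T hF.2.1)
          have h1 : area (pentagon q t) ≤ area (T '' F) :=
            ENNReal.toReal_mono (image_compact T hF.1).measure_lt_top.ne
              (MeasureTheory.measure_mono hsub)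
          rw [area_pentagon hq ht] at h1
          have := q_pos hq
          linarith
        · rw [coe_vert]
          refine Set.Subset.trans ?_ hsub
          rw [pentagon_eq]
          exact subset_convexHull ℝ _
      · rintro ⟨T, hT⟩
        obtain ⟨T', q, t, hT', hq, hq4, ht, hsub⟩ := hT.exists_pentagon
        have h1 : pentagon q t ⊆ (T.trans T'.symm) '' F := by
          have := Set.image_mono (f := T'.symm) hsub
          rw [image_symm_image, Set.image_image] at this
          exact this
        refine not_hasSmallTriangle_five (T.trans T'.symm) hq ht h1 ?_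
        have h2 : (T.trans T'.symm) '' F = T'.symm '' (T '' F) := by
          rw [Set.image_image]; rfl
        rw [h2, area_symm hT']
        exact hT.2.1
    · rw [S_eq_six_iff hF.1 hF.2.1]
      constructor
      · exact exists_normal_form hF.1 hF.2.1
      · rintro ⟨T, q, t, hq, -, ht, hP, hA⟩
        exact not_hasSmallTriangle_five T hq ht hP hA
  · intro q t q' t' hq hq4 ht hq' hq4' ht' T h
    exact inequiv hq hq4 ht hq' hq4' ht' T h

end Pool.Agent.Results.MP_83ee93_co.MinimalPentagons
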